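import Pool.Agent.W118.CY.Basic2

/-! Caro-Yuster problem (MP_7c5d5d_co): the case when the competitors are near twins. -/

set_option autoImplicit false

namespace Pool.Agent.W118.CY2

open Finset Pool.Agent.W118.CY

theorem hom_le {V : Type} [Fintype V] [DecidableEq V] {G : SimpleGraph V} [DecidableRel G.Adj]
    {P Z : Finset V} {v p : ℕ} (hP : P.card ≤ p) (hZ : Z.Nonempty) (h : hom G P Z v) :
    v + 1 ≤ p + Z.card := by
  obtain ⟨z, hz⟩ := hZ
  have h1 : (nb G z ∩ P).card ≤ p := (card_le_card inter_subset_right).trans hP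
  have h2 : 0 < Z.card := card_pos.2 ⟨z, hz⟩
  rcases h with ⟨-, h⟩ | ⟨-, h⟩
  · have := h z hz
    omega
  · have := h z hz
    omega

theorem sg_iter (h1 : S_R2) (h2 : S_RM) (t p N₂ M : ℕ) (hM1 : t + 1 ≤ M) (hM2 : N₂ ≤ M)
    (hM3 : 2 ≤ M) : ∀ j : ℕ, ∃ K : ℕ, ∀ (V : Type) [Fintype V] [DecidableEq V]
    (G : SimpleGraph V) [DecidableRel G.Adj] (P B C Z : Finset V) (v Γ R : ℕ),
    P.card ≤ p → Disjoint B P → Disjoint C B → ht G P B ≤ C.card + Γ → Z.card = M →
    Z ⊆ cp P B → (∀ z ∈ Z, (C \ nb G z).card ≤ Γ ∧ (nb G z \ (B ∪ C)).card ≤ Γ) →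
    hom G P Z v → p + M ≤ v + j → K * (Γ + 1) ≤ R → ¬ Out G P B (t + 1) N₂ R → False := by
  obtain ⟨N', hN'⟩ := h2 M p
  obtain ⟨KR, hKR⟩ := h1 t p N₂ M (2 * N') hM1 hM2
  intro j
  induction j with
  | zero =>
    refine ⟨0, ?_⟩
    intro V _ _ G _ P B C Z v Γ R hP hBP hCB hht hZc hZ hZ2 hhom hv hR hout
    have hne : Z.Nonempty := by
      rw [← card_pos]
      omega
    have := hom_le hP hne hhom
    omega
  | succ j ih =>
    obtain ⟨Kj, hKj⟩ := ih
    refine ⟨KR + Kj * (KR + 1), ?_⟩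
    intro V _ _ G _ P B C Z v Γ R hP hBP hCB hht hZc hZ hZ2 hhom hv hR hout
    have e1 : KR * (Γ + 1) ≤ (KR + Kj * (KR + 1)) * (Γ + 1) := Nat.mul_le_mul (by omega) le_rfl
    have e2 : Kj * (KR * (Γ + 1) + Γ + 1) ≤ (KR + Kj * (KR + 1)) * (Γ + 1) := by
      have : Kj * (KR * (Γ + 1) + Γ + 1) = Kj * (KR + 1) * (Γ + 1) := by ring
      rw [this]
      exact Nat.mul_le_mul (by omega) le_rfl
    obtain ⟨Y, hYc, hY, hY2, hYin, hYout, hYadj⟩ := hKR V G P B C Z v Γ R hP hBP hCB hht hZc hZ hZ2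
      hhom (e1.trans hR) hout
    have hsplit : (Y.filter (fun y => y ∈ C)).card + (Y.filter (fun y => ¬ y ∈ C)).card = 2 * N' := by
      rw [card_filter_add_card_filter_not, hYc]
    have main : ∀ Z' ⊆ Y, Z'.card = M → ∀ v', hom G P Z' v' → v + 1 ≤ v' → False := by
      intro Z' hZ' hZ'c v' hv' hvv
      refine hKj V G P B C Z' v' (KR * (Γ + 1) + Γ) R hP hBP hCB (by omega) hZ'c (hZ'.trans hY)
        (fun z hz => ?_) hv' (by omega) (e2.trans hR) hout
      have := hY2 z (hZ' hz)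
      exact ⟨by omega, by omega⟩
    by_cases hin : N' ≤ (Y.filter (fun y => y ∈ C)).card
    · obtain ⟨Z', hZ', hZ'c, v', hv'⟩ := hN' V G P _ hP hin
      have hZY : Z' ⊆ Y := hZ'.trans (filter_subset _ _)
      refine main Z' hZY hZ'c v' hv' ?_
      have hone : 1 < Z'.card := by omega
      obtain ⟨a, ha, b, hb, hab⟩ := one_lt_card.1 hone
      have haC := (mem_filter.1 (hZ' ha)).2
      have hbC := (mem_filter.1 (hZ' hb)).2
      have hadj := hYadj a (hZY ha) b (hZY hb) haC hbC hab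
      rcases hv' with ⟨-, h⟩ | ⟨h, -⟩
      · have h3 := h a ha
        have h4 := hYin a (hZY ha) haC
        omega
      · exact absurd hadj (h a ha b hb)
    · have hout' : N' ≤ (Y.filter (fun y => ¬ y ∈ C)).card := by omega
      obtain ⟨Z', hZ', hZ'c, v', hv'⟩ := hN' V G P _ hP hout'
      have hZY : Z' ⊆ Y := hZ'.trans (filter_subset _ _)
      refine main Z' hZY hZ'c v' hv' ?_
      have hne : Z'.Nonempty := by
        rw [← card_pos]
        omega
      obtain ⟨a, ha⟩ := hne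
      have haC := (mem_filter.1 (hZ' ha)).2
      have h4 := hYout a (hZY ha) haC
      rcases hv' with ⟨-, h⟩ | ⟨-, h⟩
      · have h3 := h a ha
        omega
      · have h3 := h a ha
        omega

theorem t_sg (h1 : S_R2) (h2 : S_RM) : S_SG := by
  intro t p N₂ ht1
  obtain ⟨N', hN'⟩ := h2 (max N₂ (t + 1)) p
  have hM1 : t + 1 ≤ max N₂ (t + 1) := le_max_right _ _
  have hM2 : N₂ ≤ max N₂ (t + 1) := le_max_left _ _
  obtain ⟨K, hK⟩ := sg_iter h1 h2 t p N₂ (max N₂ (t + 1)) hM1 hM2 (by omega)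
    (p + max N₂ (t + 1))
  refine ⟨max N' N₂, K * (p + 2 + N₂) + 2, ?_⟩
  intro V _ _ G _ P B r Γ hP hBP htop hN hht
  by_contra hout
  have hN1 := (le_max_left N' N₂).trans hN
  have hN2 := (le_max_right N' N₂).trans hN
  have e1 : 2 * (r + Γ + 1) ≤ (K * (p + 2 + N₂) + 2) * (r + Γ + 1) :=
    Nat.mul_le_mul (by omega) le_rfl
  obtain ⟨Z, hZ, hZc, v, hv⟩ := hN' V G P (near G P B r) hP hN1
  set C := core G P B with hC
  have hZ2 : ∀ z ∈ Z, (C \ nb G z).card ≤ Γ + r + p + 1 + N₂ ∧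
      (nb G z \ (B ∪ C)).card ≤ Γ + r + p + 1 + N₂ := by
    intro z hz
    have h4 : (C \ nb G z).card ≤ r + P.card + 1 + N₂ :=
      core_near hout hBP hN2 htop (hZ hz) (by omega)
    have h5 : (nb G z \ (B ∪ C)).card + (nb G z ∩ C).card ≤ ht G P B := by
      rw [← card_union_of_disjoint]
      · refine le_trans (card_le_card ?_) (le_ht' (G := G) (mem_near.1 (hZ hz)).1.1
          (mem_near.1 (hZ hz)).1.2)
        intro u hu
        rw [mem_union, mem_sdiff, mem_inter, mem_union] at hu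
        rw [mem_sdiff]
        rcases hu with hu | hu
        · exact ⟨hu.1, fun h => hu.2 (Or.inl h)⟩
        · exact ⟨hu.1, fun h => disjoint_left.1 core_disjoint hu.2 h⟩
      · rw [disjoint_left]
        intro u hu hu'
        rw [mem_sdiff, mem_union] at hu
        exact hu.2 (Or.inr (mem_inter.1 hu').2)
    have h6 : (C \ nb G z).card + (nb G z ∩ C).card = C.card := by
      rw [inter_comm, card_sdiff_add_card_inter]
    constructor
    · omega
    · omega
  refine hK V G P B C Z v (Γ + r + p + 1 + N₂) _ hP hBP core_disjoint (by omega) hZc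
    (fun z hz => mem_cp.2 (mem_near.1 (hZ hz)).1) hZ2 hv (by omega) ?_ hout
  have : Γ + r + p + 1 + N₂ + 1 ≤ (p + 2 + N₂) * (r + Γ + 1) := by nlinarith
  calc K * (Γ + r + p + 1 + N₂ + 1) ≤ K * ((p + 2 + N₂) * (r + Γ + 1)) :=
        Nat.mul_le_mul le_rfl this
    _ = K * (p + 2 + N₂) * (r + Γ + 1) := by rw [mul_assoc]
    _ ≤ (K * (p + 2 + N₂) + 2) * (r + Γ + 1) := Nat.mul_le_mul (by omega) le_rfl

end Pool.Agent.W118.CY2
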